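import Pool.Agent.N751.CV.Stm
import Pool.Agent.N966.CV.PlacesB

/-!
# PX/VAL (helper951): norm forms are rarely small at a given place
-/

set_option autoImplicit false
set_option linter.unusedSectionVars false

namespace Pool.Agent.N951.PX

open NumberField IsDedekindDomain Module Polynomial Pool.Agent.N753.DR Pool.Agent.N262.DR
open Pool.Agent.N751.CV (Nm StmVal)

section box

variable {K : Type} [Field K] [NumberField K]

theorem sz_nat_mul (n : ℕ) (z : 𝓞 K) : sz ((n : 𝓞 K) * z) ≤ n * sz z := by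
  rw [sz_le_iff]
  intro i
  have h2 := (sz_le_iff (z := z)).mp le_rfl i
  have h : (n : 𝓞 K) * z = (n : ℤ) • z := by simp
  rw [h, map_smul, Finsupp.smul_apply, smul_eq_mul, abs_mul]
  push_cast
  rw [abs_of_nonneg (by positivity : (0 : ℤ) ≤ (n : ℤ))]
  exact mul_le_mul_of_nonneg_left h2 (by positivity)

/-- averaging in the direction `u` -/
theorem averaging {r B A C₁ : ℕ} (u : Fin r → 𝓞 K) (hu : ∀ j, sz (u j) ≤ C₁)
    {S : Set (Fin r → 𝓞 K)} (hS : S ⊆ Bx K r B)
    (hA : ∀ Q : Fin r → 𝓞 K, ∀ T : Finset ℕ,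
      (∀ m ∈ T, m < B ∧ (Q + fun j => (m : 𝓞 K) * u j) ∈ S) → T.card ≤ A) :
    S.ncard * B ≤ A * (Bx K r ((1 + C₁) * B)).ncard := by
  classical
  have hSf : S.Finite := (Bx_finite _ _).subset hS
  have hBf := Bx_finite (K := K) r ((1 + C₁) * B)
  rw [Set.ncard_eq_toFinset_card S hSf, Set.ncard_eq_toFinset_card _ hBf]
  have h1 : hSf.toFinset.card * B = (hSf.toFinset ×ˢ Finset.range B).card := by
    rw [Finset.card_product, Finset.card_range]
  rw [h1]
  refine Finset.card_le_mul_card_image_of_maps_to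
    (f := fun p : (Fin r → 𝓞 K) × ℕ => p.1 - fun j => (p.2 : 𝓞 K) * u j) ?_ A ?_
  · rintro ⟨c, m⟩ hcm
    rw [Finset.mem_product, Set.Finite.mem_toFinset, Finset.mem_range] at hcm
    rw [Set.Finite.mem_toFinset]
    intro j
    have hj := hS hcm.1 j
    refine (sz_sub _ _).trans ?_
    have h3 : sz ((m : 𝓞 K) * u j) ≤ m * C₁ := (sz_nat_mul m _).trans (Nat.mul_le_mul_left _ (hu j))
    have h4 : m * C₁ ≤ B * C₁ := Nat.mul_le_mul_right _ hcm.2.le
    calc sz (c j) + sz ((m : 𝓞 K) * u j)
        ≤ B + B * C₁ := Nat.add_le_add hj (h3.trans h4)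
      _ = _ := by ring
  · intro Q _
    let P := (hSf.toFinset ×ˢ Finset.range B).filter
      (fun p : (Fin r → 𝓞 K) × ℕ => (p.1 - fun j => (p.2 : 𝓞 K) * u j) = Q)
    have h2 : P.card = (P.image Prod.snd).card := by
      symm
      apply Finset.card_image_of_injOn
      rintro ⟨c, m⟩ h ⟨c', m'⟩ h' hmm
      rw [Finset.mem_coe, Finset.mem_filter] at h h'
      simp only at hmm
      subst hmm
      have := h.2.trans h'.2.symm
      simp only at this
      rw [sub_left_inj] at this
      rw [this]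
    change P.card ≤ A
    rw [h2]
    apply hA Q
    intro m hm
    rw [Finset.mem_image] at hm
    obtain ⟨⟨c, m'⟩, hc, rfl⟩ := hm
    rw [Finset.mem_filter, Finset.mem_product, Set.Finite.mem_toFinset, Finset.mem_range] at hc
    refine ⟨hc.1.2, ?_⟩
    have : (Q + fun j => (m' : 𝓞 K) * u j) = c := by rw [← hc.2]; simp
    simp only
    rw [this]
    exact hc.1.1

/-- the conclusion of the averaging -/
theorem average_bound {r : ℕ} (u : Fin r → 𝓞 K) {ν A₀ : ℝ} (hA0 : 0 ≤ A₀)
    (S : ℕ → Set (Fin r → 𝓞 K)) (hS : ∀ B, S B ⊆ Bx K r B)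
    (hA : ∀ B : ℕ, 1 ≤ B → ∀ Q : Fin r → 𝓞 K, ∀ T : Finset ℕ,
      (∀ m ∈ T, m < B ∧ (Q + fun j => (m : 𝓞 K) * u j) ∈ S B) →
        (T.card : ℝ) ≤ A₀ * (B : ℝ) ^ (1 - ν)) :
    ∃ C : ℝ, ∀ B : ℕ, 1 ≤ B → ((S B).ncard : ℝ) ≤
      C * (B : ℝ) ^ ((finrank ℚ K : ℝ) * r - ν) := by
  obtain ⟨C₁, hC₁⟩ : ∃ C₁ : ℕ, ∀ j, sz (u j) ≤ C₁ :=
    ⟨Finset.univ.sup fun j => sz (u j), fun j => Finset.le_sup (f := fun j => sz (u j))
      (Finset.mem_univ j)⟩
  refine ⟨A₀ * (2 * (1 + C₁) + 1 : ℝ) ^ (finrank ℚ K * r), fun B hB => ?_⟩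
  have hB0 : (0 : ℝ) < B := by exact_mod_cast hB
  have hB1 : (1 : ℝ) ≤ B := by exact_mod_cast hB
  set A : ℕ := ⌊A₀ * (B : ℝ) ^ (1 - ν)⌋₊ with hAdef
  have h1 := averaging u hC₁ (hS B) (A := A) (fun Q T hT => Nat.le_floor (hA B hB Q T hT))
  have h2 : (A : ℝ) ≤ A₀ * (B : ℝ) ^ (1 - ν) := Nat.floor_le (by positivity)
  have h3 := Bx_card (K := K) r ((1 + C₁) * B)
  have h4 : ((S B).ncard : ℝ) * B ≤ (A₀ * (B : ℝ) ^ (1 - ν)) *
      ((2 * (1 + C₁) + 1 : ℝ) ^ (finrank ℚ K * r) *
        (B : ℝ) ^ (finrank ℚ K * r)) := by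
    calc ((S B).ncard : ℝ) * B ≤ (A : ℝ) *
          ((Bx K r ((1 + C₁) * B)).ncard : ℝ) := by exact_mod_cast h1
      _ ≤ (A₀ * (B : ℝ) ^ (1 - ν)) *
          ((2 * ((1 + C₁) * B) + 1 : ℕ) ^ (finrank ℚ K * r) : ℕ) := by
          apply mul_le_mul h2 (by exact_mod_cast h3) (by positivity) (by positivity)
      _ ≤ _ := by
          apply mul_le_mul_of_nonneg_left _ (by positivity)
          rw [← mul_pow]
          push_cast
          apply pow_le_pow_left₀ (by positivity)
          nlinarith
  have h5 : (B : ℝ) ^ ((finrank ℚ K : ℝ) * r - ν) * B =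
      (B : ℝ) ^ (1 - ν) * (B : ℝ) ^ (finrank ℚ K * r) := by
    rw [← Real.rpow_natCast (B : ℝ) (finrank ℚ K * r), ← Real.rpow_add hB0]
    nth_rewrite 2 [← Real.rpow_one (B : ℝ)]
    rw [← Real.rpow_add hB0]
    congr 1
    push_cast
    ring
  have h6 : ((S B).ncard : ℝ) * B ≤
      (A₀ * (2 * (1 + C₁) + 1 : ℝ) ^ (finrank ℚ K * r) *
      (B : ℝ) ^ ((finrank ℚ K : ℝ) * r - ν)) * B := by
    refine h4.trans (le_of_eq ?_)
    rw [mul_assoc (A₀ * _), h5]
    ring
  exact le_of_mul_le_mul_right h6 hB0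

end box

/-! ### combinatorics -/

/-- a set with more than `d ρ` elements contains `d + 1` elements with distances `≥ ρ` -/
theorem exists_sep (ρ : ℕ) (hρ : 1 ≤ ρ) : ∀ (d : ℕ) (T : Finset ℕ), d * ρ < T.card →
    ∃ s ⊆ T, s.card = d + 1 ∧ ∀ i ∈ s, ∀ j ∈ s, i ≠ j → (ρ : ℝ) ≤ |(i : ℝ) - j| := by
  intro d
  induction d with
  | zero =>
    intro T hT
    have hne : T.Nonempty := Finset.card_pos.1 (by omega)
    obtain ⟨x, hx⟩ := hne
    refine ⟨{x}, Finset.singleton_subset_iff.2 hx, by simp, ?_⟩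
    intro i hi j hj hij
    rw [Finset.mem_singleton] at hi hj
    exact absurd (hi.trans hj.symm) hij
  | succ d ih =>
    intro T hT
    have hne : T.Nonempty := Finset.card_pos.1 (by omega)
    set m := T.min' hne with hm
    have h1 : (T.filter (fun x => ¬ m + ρ ≤ x)).card ≤ ρ := by
      have h2 : T.filter (fun x => ¬ m + ρ ≤ x) ⊆ Finset.Ico m (m + ρ) := by
        intro x hx
        rw [Finset.mem_filter] at hx
        rw [Finset.mem_Ico]
        exact ⟨T.min'_le x hx.1, by omega⟩
      have h3 := Finset.card_le_card h2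
      rw [Nat.card_Ico] at h3
      omega
    have h2 := Finset.card_filter_add_card_filter_not (s := T) (fun x => m + ρ ≤ x)
    have h3 : d * ρ < (T.filter (fun x => m + ρ ≤ x)).card := by
      have : (d + 1) * ρ = d * ρ + ρ := by ring
      omega
    obtain ⟨s, hs, hcard, hsep⟩ := ih _ h3
    have hms' : m ∉ s := by
      intro h
      have := (Finset.mem_filter.1 (hs h)).2
      omega
    refine ⟨insert m s, ?_, ?_, ?_⟩
    · intro x hx
      rw [Finset.mem_insert] at hx
      rcases hx with rfl | hx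
      · exact T.min'_mem hne
      · exact (Finset.mem_filter.1 (hs hx)).1
    · rw [Finset.card_insert_of_notMem hms', hcard]
    · have key : ∀ x ∈ s, (ρ : ℝ) ≤ (x : ℝ) - m := by
        intro x hx
        have := (Finset.mem_filter.1 (hs hx)).2
        have h4 : ((m + ρ : ℕ) : ℝ) ≤ x := by exact_mod_cast this
        push_cast at h4
        linarith
      intro i hi j hj hij
      rw [Finset.mem_insert] at hi hj
      rcases hi with rfl | hi <;> rcases hj with rfl | hj
      · exact absurd rfl hij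
      · rw [abs_sub_comm]
        exact (key j hj).trans (le_abs_self _)
      · exact (key i hi).trans (le_abs_self _)
      · exact hsep i hi j hj hij

/-- either few elements, or `d + 1` pairwise incongruent elements -/
theorem exists_incong (N B : ℕ) (hN : 1 ≤ N) (d : ℕ) (T : Finset ℕ) (hT : ∀ x ∈ T, x < B) :
    (T.card : ℝ) ≤ d * ((B : ℝ) / N + 1) ∨
    ∃ s ⊆ T, s.card = d + 1 ∧ ∀ i ∈ s, ∀ j ∈ s, i ≠ j → ¬ i ≡ j [MOD N] := by
  classical
  by_cases h : (T.image (fun x => x % N)).card ≤ d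
  · left
    have h1 : T.card = ∑ c ∈ T.image (fun x => x % N), (T.filter (fun x => x % N = c)).card :=
      Finset.card_eq_sum_card_image _ _
    have hN0 : (0 : ℝ) < N := by exact_mod_cast hN
    have h2 : ∀ c ∈ T.image (fun x => x % N),
        ((T.filter (fun x => x % N = c)).card : ℝ) ≤ (B : ℝ) / N + 1 := by
      intro c _
      refine card_separated hN0 (fun m hm => hT m (Finset.mem_filter.1 hm).1) ?_
      intro m hm m' hm' hlt
      have e : m % N = m' % N := (Finset.mem_filter.1 hm).2.trans (Finset.mem_filter.1 hm').2.symm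
      have h3 : N ∣ m' - m := (Nat.modEq_iff_dvd' hlt.le).1 e
      have h4 := Nat.le_of_dvd (by omega) h3
      have h5 : ((m + N : ℕ) : ℝ) ≤ m' := by exact_mod_cast (by omega : m + N ≤ m')
      push_cast at h5
      linarith
    rw [h1, Nat.cast_sum]
    refine (Finset.sum_le_sum h2).trans ?_
    rw [Finset.sum_const, nsmul_eq_mul]
    have h6 : ((T.image (fun x => x % N)).card : ℝ) ≤ d := by exact_mod_cast h
    exact mul_le_mul_of_nonneg_right h6 (by positivity)
  · right
    obtain ⟨t, ht, hcard⟩ := Finset.exists_subset_card_eq (show d + 1 ≤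
      (T.image (fun x => x % N)).card by omega)
    have h1 : ∀ y ∈ t, ∃ x ∈ T, x % N = y := fun y hy => Finset.mem_image.1 (ht hy)
    choose! g hg1 hg2 using h1
    refine ⟨t.image g, ?_, ?_, ?_⟩
    · intro x hx
      obtain ⟨y, hy, rfl⟩ := Finset.mem_image.1 hx
      exact hg1 y hy
    · rw [Finset.card_image_of_injOn, hcard]
      intro y hy y' hy' hyy
      have h7 : g y % N = g y' % N := congrArg (fun x => x % N) hyy
      rwa [hg2 y hy, hg2 y' hy'] at h7
    · intro i hi j hj hij hcong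
      obtain ⟨y, hy, rfl⟩ := Finset.mem_image.1 hi
      obtain ⟨y', hy', rfl⟩ := Finset.mem_image.1 hj
      apply hij
      have h2 : g y % N = g y' % N := hcong
      rw [hg2 y hy, hg2 y' hy'] at h2
      rw [h2]

/-! ### the polynomial -/

section poly

variable {K R : Type} [Field K] [CommRing R] [Algebra K R] [FiniteDimensional K R] {m : ℕ}

theorem nm_poly (β : Fin m → R) (c u : Fin m → K) : ∃ P : K[X], P.natDegree ≤ finrank K R ∧
    P.coeff (finrank K R) = Nm β u ∧ ∀ z : K, P.eval z = Nm β (fun i => c i + z * u i) := by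
  classical
  let b := Module.finBasis K R
  let A := Algebra.leftMulMatrix b (∑ i, u i • β i)
  let B := Algebra.leftMulMatrix b (∑ i, c i • β i)
  refine ⟨((X : K[X]) • A.map C + B.map C).det, ?_, ?_, ?_⟩
  · have := natDegree_det_X_add_C_le A B
    rwa [Fintype.card_fin] at this
  · have := coeff_det_X_add_C_card A B
    rw [Fintype.card_fin] at this
    rw [this]
    unfold Nm
    rw [Algebra.norm_eq_matrix_det b]
  · intro z
    unfold Nm
    rw [Algebra.norm_eq_matrix_det b, ← coe_evalRingHom, RingHom.map_det]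
    congr 1
    have e : ∑ i, (c i + z * u i) • β i = z • (∑ i, u i • β i) + ∑ i, c i • β i := by
      rw [Finset.smul_sum, ← Finset.sum_add_distrib]
      refine Finset.sum_congr rfl fun i _ => ?_
      rw [add_smul, mul_smul, add_comm]
    have e2 : Algebra.leftMulMatrix b (z • (∑ i, u i • β i) + ∑ i, c i • β i) = z • A + B := by
      rw [map_add, map_smul]
    rw [e, e2]
    ext i j
    simp only [RingHom.mapMatrix_apply, Matrix.map_apply, Matrix.add_apply, Matrix.smul_apply,
      smul_eq_mul, coe_evalRingHom, eval_add, eval_mul, eval_X, eval_C]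

/-- the interpolation formula -/
theorem nm_lagrange [CharZero K] (β : Fin m → R) (c u : Fin m → K) (s : Finset ℕ)
    (hs : s.card = finrank K R + 1) : Nm β u = ∑ i ∈ s, Nm β (fun l => c l + (i : K) * u l) /
      ∏ j ∈ s.erase i, ((i : K) - (j : K)) := by
  classical
  obtain ⟨P, h1, h2, h3⟩ := nm_poly β c u
  have hinj : Set.InjOn (fun i : ℕ => (i : K)) s := fun i _ j _ h => Nat.cast_injective h
  have hdeg : P.degree < s.card := by
    rw [hs]
    refine lt_of_le_of_lt degree_le_natDegree ?_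
    exact_mod_cast Nat.lt_succ_of_le h1
  have h4 := Lagrange.coeff_eq_sum hinj hdeg
  rw [hs, Nat.add_sub_cancel, h2] at h4
  rw [h4]
  refine Finset.sum_congr rfl fun i _ => ?_
  rw [h3]

theorem nm_zero (h : finrank K R = 0) (β : Fin m → R) (c : Fin m → K) : Nm β c = 1 := by
  unfold Nm
  have : IsEmpty (Fin (finrank K R)) := by
    rw [h]
    infer_instance
  rw [Algebra.norm_eq_matrix_det (Module.finBasis K R)]
  exact Matrix.det_isEmpty

theorem nm_smul (β : Fin m → R) (a : K) (c : Fin m → K) :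
    Nm β (fun i => a * c i) = a ^ finrank K R * Nm β c := by
  unfold Nm
  have e : ∑ i, (a * c i) • β i = algebraMap K R a * ∑ i, c i • β i := by
    rw [Finset.mul_sum]
    refine Finset.sum_congr rfl fun i _ => ?_
    rw [mul_smul, Algebra.smul_def]
  rw [e, map_mul, Algebra.norm_algebraMap_of_basis (Module.finBasis K R), Fintype.card_fin]

end poly


/-! ### the finite places -/

section places

variable {K : Type} [Field K] [NumberField K]

theorem exists_prime_mem (v : HeightOneSpectrum (𝓞 K)) :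
    ∃ p : ℕ, p.Prime ∧ (p : 𝓞 K) ∈ v.asIdeal := by
  have key : ∀ n : ℕ, n ≠ 0 → (n : 𝓞 K) ∈ v.asIdeal →
      ∃ p : ℕ, p.Prime ∧ (p : 𝓞 K) ∈ v.asIdeal := by
    intro n
    induction n using Nat.recOnMul with
    | zero => intro h; exact absurd rfl h
    | one =>
      intro _ h
      rw [Nat.cast_one] at h
      exact absurd ((Ideal.eq_top_iff_one _).2 h) v.isPrime.ne_top
    | prime p hp => intro _ h; exact ⟨p, hp, h⟩
    | mul a b ha hb =>
      intro h h'
      rw [Nat.cast_mul] at h'
      rcases v.isPrime.mem_or_mem h' with h1 | h1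
      · exact ha (left_ne_zero_of_mul h) h1
      · exact hb (right_ne_zero_of_mul h) h1
  apply key (Ideal.absNorm v.asIdeal)
  · rw [Ne, Ideal.absNorm_eq_zero_iff]
    exact v.ne_bot
  · exact Ideal.absNorm_mem _

theorem fp_le_one (v : HeightOneSpectrum (𝓞 K)) (x : 𝓞 K) :
    FinitePlace.mk v (x : K) ≤ 1 := by
  rw [FinitePlace.mk_apply]
  exact FinitePlace.norm_le_one K v x

theorem fp_lt_one (v : HeightOneSpectrum (𝓞 K)) (x : 𝓞 K) :
    FinitePlace.mk v (x : K) < 1 ↔ x ∈ v.asIdeal := by
  rw [FinitePlace.mk_apply]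
  exact FinitePlace.norm_lt_one_iff_mem K v x

/-- integers not divisible by `p ^ k` are not small -/
theorem fp_int (v : HeightOneSpectrum (𝓞 K)) {p : ℕ} (hp : p.Prime)
    (hpv : (p : 𝓞 K) ∈ v.asIdeal) (k : ℕ) (n : ℕ) (hn : ¬ p ^ k ∣ n) :
    FinitePlace.mk v ((p : ℕ) : K) ^ k ≤ FinitePlace.mk v ((n : ℕ) : K) := by
  have hn0 : n ≠ 0 := by rintro rfl; exact hn (dvd_zero _)
  obtain ⟨a, m, hm, hnm⟩ := Nat.exists_eq_pow_mul_and_not_dvd hn0 p hp.ne_one
  have hak : a ≤ k := by
    by_contra h
    apply hn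
    rw [hnm]
    exact Dvd.dvd.mul_right (pow_dvd_pow _ (by omega)) _
  have hm1 : FinitePlace.mk v ((m : ℕ) : K) = 1 := by
    have h1 := fp_le_one v ((m : ℕ) : 𝓞 K)
    rcases h1.lt_or_eq with h2 | h2
    · exfalso
      rw [fp_lt_one] at h2
      have hc : IsCoprime (p : ℤ) (m : ℤ) :=
        Nat.isCoprime_iff_coprime.2 ((Nat.Prime.coprime_iff_not_dvd hp).2 hm)
      obtain ⟨x, y, hxy⟩ := hc
      have h3 : ((x : 𝓞 K)) * (p : 𝓞 K) + (y : 𝓞 K) * (m : 𝓞 K) = 1 := by
        have := congrArg (fun z : ℤ => (z : 𝓞 K)) hxy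
        push_cast at this
        exact this
      have h4 : (1 : 𝓞 K) ∈ v.asIdeal := by
        rw [← h3]
        exact Ideal.add_mem _ (Ideal.mul_mem_left _ _ hpv) (Ideal.mul_mem_left _ _ h2)
      exact absurd ((Ideal.eq_top_iff_one _).2 h4) v.isPrime.ne_top
    · simpa using h2
  have hp1 : FinitePlace.mk v ((p : ℕ) : K) ≤ 1 := by
    have := fp_le_one v ((p : ℕ) : 𝓞 K)
    simpa using this
  rw [hnm, Nat.cast_mul, Nat.cast_pow, map_mul, map_pow, hm1, mul_one]
  exact pow_le_pow_of_le_one (apply_nonneg _ _) hp1 hak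

theorem fp_sum (v : HeightOneSpectrum (𝓞 K)) {ι : Type} (s : Finset ι) (f : ι → K) {M : ℝ}
    (hM : 0 ≤ M) (hf : ∀ i ∈ s, FinitePlace.mk v (f i) ≤ M) :
    FinitePlace.mk v (∑ i ∈ s, f i) ≤ M := by
  classical
  induction s using Finset.induction_on with
  | empty => simpa using hM
  | insert a s ha ih =>
    rw [Finset.sum_insert ha]
    refine (FinitePlace.add_le _ _ _).trans (max_le ?_ ?_)
    · exact hf a (Finset.mem_insert_self _ _)
    · exact ih fun i hi => hf i (Finset.mem_insert_of_mem hi)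

end places

/-! ### the main estimates -/

section main

variable {K R : Type} [Field K] [NumberField K] [CommRing R] [Algebra K R]
  [FiniteDimensional K R] {m : ℕ}

theorem exists_int (β : Fin m → R) (h : ∃ u : Fin m → K, Nm β u ≠ 0) :
    ∃ u : Fin m → 𝓞 K, Nm β (fun i => (u i : K)) ≠ 0 := by
  obtain ⟨u, hu⟩ := h
  obtain ⟨b, hb⟩ := IsLocalization.exist_integer_multiples_of_finite (nonZeroDivisors (𝓞 K)) u
  choose u' hu' using hb
  refine ⟨u', ?_⟩
  have h1 : (fun i => (u' i : K)) = fun i => ((b : 𝓞 K) : K) * u i := by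
    funext i
    have := hu' i
    rw [Algebra.smul_def] at this
    exact this
  rw [h1, nm_smul]
  refine mul_ne_zero (pow_ne_zero _ ?_) hu
  intro h
  exact nonZeroDivisors.ne_zero b.2 (RingOfIntegers.coe_eq_zero_iff.1 h)

theorem line_eq (β : Fin m → R) (Q u : Fin m → 𝓞 K) (i : ℕ) :
    Nm β (fun l => (((Q + fun j => (i : 𝓞 K) * u j) l : 𝓞 K) : K)) =
      Nm β (fun l => (Q l : K) + (i : K) * (u l : K)) := by
  congr 1

theorem arch (β : Fin m → R) (u : Fin m → 𝓞 K) (hu : Nm β (fun i => (u i : K)) ≠ 0)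
    (hd : finrank K R ≠ 0) {κ : ℝ} (hκ : 0 < κ) (σ : K →+* ℂ) :
    ∃ ν C : ℝ, 0 < ν ∧ ∀ B : ℕ, 1 ≤ B →
    ({c ∈ Bx K m B | ‖σ (Nm β fun i => (c i : K))‖ ≤
      (B : ℝ) ^ ((finrank K R : ℝ) - κ)}.ncard : ℝ) ≤
      C * (B : ℝ) ^ ((finrank ℚ K : ℝ) * m - ν) := by
  classical
  set d : ℕ := finrank K R with hdd
  have hd0 : (0 : ℝ) < d := by exact_mod_cast Nat.pos_of_ne_zero hd
  set q : ℝ := ‖σ (Nm β (fun i => (u i : K)))‖ with hq
  have hq0 : 0 < q := by
    rw [hq, norm_pos_iff]
    exact (map_ne_zero σ).2 hu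
  set C1 : ℝ := (d + 1) / q + 1 with hC1
  have hC10 : 0 < C1 := by positivity
  have hC11 : 1 ≤ C1 := by
    rw [hC1]
    have : 0 ≤ ((d : ℝ) + 1) / q := by positivity
    linarith
  obtain ⟨C, hC⟩ := average_bound (K := K) u (ν := min 1 (κ / d)) (A₀ := d * (C1 + 1))
    (by positivity)
    (fun B => {c ∈ Bx K m B | ‖σ (Nm β fun i => (c i : K))‖ ≤ (B : ℝ) ^ ((d : ℝ) - κ)})
    (fun B c hc => hc.1) (by
      intro B hB Q T hT
      have hB1 : (1 : ℝ) ≤ B := by exact_mod_cast hB
      have hB0 : (0 : ℝ) < B := by linarith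
      set ρ : ℕ := ⌈C1 * (B : ℝ) ^ (1 - κ / d)⌉₊ with hρ
      have hρ0 : 0 < C1 * (B : ℝ) ^ (1 - κ / d) := by positivity
      have hρ1 : 1 ≤ ρ := Nat.one_le_iff_ne_zero.2 (Nat.ceil_pos.2 hρ0).ne'
      have hρ2 : C1 * (B : ℝ) ^ (1 - κ / d) ≤ ρ := Nat.le_ceil _
      have hρ3 : (ρ : ℝ) ≤ C1 * (B : ℝ) ^ (1 - κ / d) + 1 := (Nat.ceil_lt_add_one hρ0.le).le
      have hρ4 : (0 : ℝ) < ρ := by exact_mod_cast hρ1
      have hcard : T.card ≤ d * ρ := by
        by_contra hcon
        obtain ⟨s, hsT, hs, hsep⟩ := exists_sep ρ hρ1 d T (by omega)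
        have h1 := nm_lagrange β (fun l => (Q l : K)) (fun l => (u l : K)) s (hdd ▸ hs)
        have h2 : q ≤ (d + 1) * ((B : ℝ) ^ ((d : ℝ) - κ) / (ρ : ℝ) ^ d) := by
          rw [hq, h1, map_sum]
          refine (norm_sum_le _ _).trans ?_
          have h3 : ∀ i ∈ s, ‖σ (Nm β (fun l => (Q l : K) + (i : K) * (u l : K)) /
              ∏ j ∈ s.erase i, ((i : K) - (j : K)))‖ ≤
              (B : ℝ) ^ ((d : ℝ) - κ) / (ρ : ℝ) ^ d := by
            intro i hi
            have h4 := (hT i (hsT hi)).2.2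
            rw [line_eq] at h4
            rw [map_div₀, norm_div]
            have h5 : (ρ : ℝ) ^ d ≤ ‖σ (∏ j ∈ s.erase i, ((i : K) - (j : K)))‖ := by
              rw [map_prod, norm_prod]
              have h6 : (s.erase i).card = d := by
                rw [Finset.card_erase_of_mem hi, hs]
                rfl
              rw [← h6, ← Finset.prod_const]
              apply Finset.prod_le_prod
              · intro j _
                positivity
              · intro j hj
                rw [map_sub, map_natCast, map_natCast]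
                have h7 := hsep i hi j (Finset.mem_of_mem_erase hj)
                  (Finset.ne_of_mem_erase hj).symm
                have h8 : ‖((i : ℂ) - (j : ℂ))‖ = |(i : ℝ) - j| := by
                  rw [← Complex.ofReal_natCast, ← Complex.ofReal_natCast, ← Complex.ofReal_sub,
                    Complex.norm_real, Real.norm_eq_abs]
                rw [h8]
                exact h7
            gcongr
          refine (Finset.sum_le_sum h3).trans ?_
          rw [Finset.sum_const, hs, nsmul_eq_mul]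
          push_cast
          exact le_rfl
        have h3 : C1 * (B : ℝ) ^ ((d : ℝ) - κ) ≤ (ρ : ℝ) ^ d := by
          have h4 : (C1 * (B : ℝ) ^ (1 - κ / d)) ^ d ≤ (ρ : ℝ) ^ d :=
            pow_le_pow_left₀ hρ0.le hρ2 d
          refine le_trans ?_ h4
          rw [mul_pow, ← Real.rpow_natCast ((B : ℝ) ^ (1 - κ / d)), ← Real.rpow_mul hB0.le]
          have h5 : (1 - κ / d) * (d : ℝ) = (d : ℝ) - κ := by field_simp
          rw [h5]
          exact mul_le_mul_of_nonneg_right (le_self_pow₀ hC11 hd) (by positivity)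
        have h4 : (B : ℝ) ^ ((d : ℝ) - κ) / (ρ : ℝ) ^ d ≤ 1 / C1 := by
          rw [div_le_div_iff₀ (by positivity) hC10, one_mul, mul_comm]
          exact h3
        have h5 : q ≤ (d + 1) * (1 / C1) :=
          h2.trans (mul_le_mul_of_nonneg_left h4 (by positivity))
        have h6 : ((d : ℝ) + 1) < q * C1 := by
          rw [hC1, mul_add, mul_div_cancel₀ _ hq0.ne']
          linarith
        have h7 : q * C1 ≤ (d + 1) := by
          rw [mul_one_div, le_div_iff₀ hC10] at h5
          exact h5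
        linarith
      have h3 : (B : ℝ) ^ (1 - κ / d) ≤ (B : ℝ) ^ (1 - min 1 (κ / d)) :=
        Real.rpow_le_rpow_of_exponent_le hB1 (by linarith [min_le_right 1 (κ / d)])
      have h4 : (1 : ℝ) ≤ (B : ℝ) ^ (1 - min 1 (κ / d)) :=
        Real.one_le_rpow hB1 (by linarith [min_le_left 1 (κ / d)])
      calc (T.card : ℝ) ≤ d * ρ := by exact_mod_cast hcard
        _ ≤ d * (C1 * (B : ℝ) ^ (1 - κ / d) + 1) := by gcongr
        _ ≤ d * (C1 * (B : ℝ) ^ (1 - min 1 (κ / d)) + 1 * (B : ℝ) ^ (1 - min 1 (κ / d))) := by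
            rw [one_mul]
            gcongr
        _ = _ := by ring)
  exact ⟨min 1 (κ / d), C, by positivity, hC⟩

theorem finplace (β : Fin m → R) (u : Fin m → 𝓞 K) (hu : Nm β (fun i => (u i : K)) ≠ 0)
    (hd : finrank K R ≠ 0) {κ : ℝ} (hκ : 0 < κ) (v : HeightOneSpectrum (𝓞 K)) :
    ∃ ν C : ℝ, 0 < ν ∧ ∀ B : ℕ, 1 ≤ B →
    ({c ∈ Bx K m B | FinitePlace.mk v (Nm β fun i => (c i : K)) ≤ (B : ℝ) ^ (-κ)}.ncard : ℝ) ≤
      C * (B : ℝ) ^ ((finrank ℚ K : ℝ) * m - ν) := by
  classical
  obtain ⟨p, hp, hpv⟩ := exists_prime_mem v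
  set d : ℕ := finrank K R with hdd
  have hd0 : (0 : ℝ) < d := by exact_mod_cast Nat.pos_of_ne_zero hd
  have hd1 : (1 : ℝ) ≤ d := by exact_mod_cast Nat.pos_of_ne_zero hd
  set θ : ℝ := FinitePlace.mk v (Nm β (fun i => (u i : K))) with hθ
  have hθ0 : 0 < θ := FinitePlace.pos_iff.2 hu
  set π : ℝ := FinitePlace.mk v ((p : ℕ) : K) with hπ
  have hp0 : (0 : ℝ) < p := by exact_mod_cast hp.pos
  have hp1 : (1 : ℝ) < p := by exact_mod_cast hp.one_lt
  have hπ0 : 0 < π := FinitePlace.pos_iff.2 (by exact_mod_cast hp.ne_zero)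
  have hπ1 : π < 1 := by
    have := (fp_lt_one v ((p : ℕ) : 𝓞 K)).2 hpv
    rwa [show (((p : ℕ) : 𝓞 K) : K) = ((p : ℕ) : K) by simp] at this
  set lam : ℝ := -Real.log π with hlam
  have hlam0 : 0 < lam := by
    rw [hlam]
    have := Real.log_neg hπ0 hπ1
    linarith
  set μ : ℝ := κ * Real.log p / (d * lam) with hμ
  have hlogp : 0 < Real.log p := Real.log_pos hp1
  have hμ0 : 0 < μ := by positivity
  set c0 : ℝ := Real.exp (Real.log θ * Real.log p / (d * lam)) / p with hc0
  have hc00 : 0 < c0 := by positivity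
  obtain ⟨C, hC⟩ := average_bound (K := K) u (ν := min 1 μ) (A₀ := d * (1 / c0 + 1))
    (by positivity)
    (fun B => {c ∈ Bx K m B | FinitePlace.mk v (Nm β fun i => (c i : K)) ≤ (B : ℝ) ^ (-κ)})
    (fun B c hc => hc.1) (by
      intro B hB Q T hT
      have hB1 : (1 : ℝ) ≤ B := by exact_mod_cast hB
      have hB0 : (0 : ℝ) < B := by linarith
      set x : ℝ := (κ * Real.log B + Real.log θ) / (d * lam) with hx
      set k : ℕ := ⌈x⌉₊ - 1 with hk
      have hk1 : x ≤ k + 1 := by
        refine (Nat.le_ceil x).trans ?_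
        have : ⌈x⌉₊ ≤ k + 1 := by omega
        exact_mod_cast this
      -- the power `p ^ k` is large
      have hpk : c0 * (B : ℝ) ^ μ ≤ (p : ℝ) ^ k := by
        have h1 : Real.exp (x * Real.log p) ≤ (p : ℝ) ^ k * p := by
          rw [← pow_succ, ← Real.exp_log (show (0 : ℝ) < (p : ℝ) ^ (k + 1) by positivity),
            Real.exp_le_exp, Real.log_pow]
          apply mul_le_mul_of_nonneg_right _ hlogp.le
          push_cast
          exact hk1
        have h2 : Real.exp (x * Real.log p) =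
            Real.exp (Real.log θ * Real.log p / (d * lam)) * (B : ℝ) ^ μ := by
          rw [Real.rpow_def_of_pos hB0, ← Real.exp_add]
          congr 1
          rw [hx, hμ]
          field_simp
          ring
        rw [h2] at h1
        rw [hc0, div_mul_eq_mul_div, div_le_iff₀ hp0]
        exact h1
      have hcard : (T.card : ℝ) ≤ d * ((B : ℝ) / (p ^ k : ℕ) + 1) := by
        rcases exists_incong (p ^ k) B (Nat.one_le_pow _ _ hp.pos) d T
          (fun y hy => (hT y hy).1) with h | ⟨s, hsT, hs, hinc⟩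
        · exact h
        · rcases Nat.eq_zero_or_pos k with hk0 | hk0
          · -- `k = 0`
            have h1 : T.card ≤ B := by
              have h2 : T ⊆ Finset.range B := fun y hy => Finset.mem_range.2 (hT y hy).1
              have := Finset.card_le_card h2
              rwa [Finset.card_range] at this
            have h3 : (T.card : ℝ) ≤ B := by exact_mod_cast h1
            rw [hk0]
            simp only [pow_zero, Nat.cast_one, div_one]
            nlinarith
          · exfalso
            have hkx : (k : ℝ) < x := by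
              have : k < ⌈x⌉₊ := by omega
              exact Nat.lt_ceil.1 this
            have h1 := nm_lagrange β (fun l => (Q l : K)) (fun l => (u l : K)) s (hdd ▸ hs)
            have h2 : θ ≤ (B : ℝ) ^ (-κ) / (π ^ k) ^ d := by
              rw [hθ, h1]
              apply fp_sum v s _ (by positivity)
              intro i hi
              have h4 := (hT i (hsT hi)).2.2
              rw [line_eq] at h4
              rw [map_div₀]
              have h5 : (π ^ k) ^ d ≤
                  FinitePlace.mk v (∏ j ∈ s.erase i, ((i : K) - (j : K))) := by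
                rw [map_prod]
                have h6 : (s.erase i).card = d := by
                  rw [Finset.card_erase_of_mem hi, hs]
                  rfl
                rw [← h6, ← Finset.prod_const]
                apply Finset.prod_le_prod
                · intro j _
                  positivity
                · intro j hj
                  have h7 := hinc i hi j (Finset.mem_of_mem_erase hj)
                    (Finset.ne_of_mem_erase hj).symm
                  rcases le_total i j with hij | hij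
                  · have h8 : ¬ p ^ k ∣ j - i := fun h => h7 ((Nat.modEq_iff_dvd' hij).2 h)
                    have h9 := fp_int v hp hpv k (j - i) h8
                    rw [Nat.cast_sub hij] at h9
                    have h10 : (i : K) - j = -((j : K) - i) := by ring
                    rw [h10, map_neg_eq_map]
                    exact h9
                  · have h8 : ¬ p ^ k ∣ i - j :=
                      fun h => h7 ((Nat.modEq_iff_dvd' hij).2 h).symm
                    have h9 := fp_int v hp hpv k (i - j) h8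
                    rw [Nat.cast_sub hij] at h9
                    exact h9
              gcongr
            rw [le_div_iff₀ (by positivity)] at h2
            have h3 : Real.log (θ * (π ^ k) ^ d) ≤ Real.log ((B : ℝ) ^ (-κ)) :=
              Real.log_le_log (by positivity) h2
            rw [Real.log_mul hθ0.ne' (by positivity), Real.log_pow, Real.log_pow,
              Real.log_rpow hB0] at h3
            have h4 : Real.log π = -lam := by rw [hlam]; ring
            rw [h4] at h3
            have h5 : (k : ℝ) * (d * lam) < κ * Real.log B + Real.log θ := by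
              rw [hx, lt_div_iff₀ (by positivity)] at hkx
              exact hkx
            nlinarith
      have h3 : (B : ℝ) / (p ^ k : ℕ) ≤ 1 / c0 * (B : ℝ) ^ (1 - μ) := by
        push_cast
        rw [div_le_iff₀ (by positivity)]
        have h5 : (B : ℝ) ^ (1 - μ) * (B : ℝ) ^ μ = B := by
          rw [← Real.rpow_add hB0]
          simp
        calc (B : ℝ) = 1 / c0 * (B : ℝ) ^ (1 - μ) * (c0 * (B : ℝ) ^ μ) := by
              rw [show 1 / c0 * (B : ℝ) ^ (1 - μ) * (c0 * (B : ℝ) ^ μ) =
                (1 / c0 * c0) * ((B : ℝ) ^ (1 - μ) * (B : ℝ) ^ μ) by ring, h5,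
                one_div, inv_mul_cancel₀ hc00.ne', one_mul]
          _ ≤ _ := by gcongr
      have h4 : (B : ℝ) ^ (1 - μ) ≤ (B : ℝ) ^ (1 - min 1 μ) :=
        Real.rpow_le_rpow_of_exponent_le hB1 (by linarith [min_le_right 1 μ])
      have h5 : (1 : ℝ) ≤ (B : ℝ) ^ (1 - min 1 μ) :=
        Real.one_le_rpow hB1 (by linarith [min_le_left 1 μ])
      calc (T.card : ℝ) ≤ d * ((B : ℝ) / (p ^ k : ℕ) + 1) := hcard
        _ ≤ d * (1 / c0 * (B : ℝ) ^ (1 - μ) + 1) := by gcongr
        _ ≤ d * (1 / c0 * (B : ℝ) ^ (1 - min 1 μ) + 1 * (B : ℝ) ^ (1 - min 1 μ)) := by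
            rw [one_mul]
            gcongr
        _ = _ := by ring)
  exact ⟨min 1 μ, C, by positivity, hC⟩

/-- the degenerate case `R = 0` -/
theorem degenerate {S : ℕ → Set (Fin m → 𝓞 K)} 
    (h : ∀ B : ℕ, 2 ≤ B → S B = ∅) : ∃ ν C : ℝ, 0 < ν ∧ ∀ B : ℕ, 1 ≤ B →
    ((S B).ncard : ℝ) ≤ C * (B : ℝ) ^ ((finrank ℚ K : ℝ) * m - ν) := by
  refine ⟨1, (S 1).ncard, one_pos, fun B hB => ?_⟩
  rcases Nat.lt_or_ge 1 B with h1 | h1
  · rw [h B h1]
    simp only [Set.ncard_empty, Nat.cast_zero]
    positivity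
  · have : B = 1 := by omega
    subst this
    simp

end main

theorem t : StmVal := by
  intro K R _ _ _ _ _ m β hu κ hκ
  by_cases hd : finrank K R = 0
  · have key : ∀ B : ℕ, 2 ≤ B → ¬ (1 : ℝ) ≤ (B : ℝ) ^ (-κ) := by
      intro B hB h
      have h1 : (1 : ℝ) < B := by exact_mod_cast hB
      have h2 : (B : ℝ) ^ (-κ) < 1 := Real.rpow_lt_one_of_one_lt_of_neg h1 (by linarith)
      linarith
    constructor
    · intro σ
      refine degenerate (K := K)
        (S := fun B => {c ∈ Bx K m B | ‖σ (Nm β fun i => (c i : K))‖ ≤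
          (B : ℝ) ^ ((finrank K R : ℝ) - κ)}) ?_
      intro B hB
      rw [Set.eq_empty_iff_forall_notMem]
      intro c hc
      have h1 := hc.2
      rw [nm_zero hd, hd] at h1
      simp only [map_one, norm_one, Nat.cast_zero, zero_sub] at h1
      exact key B hB h1
    · intro v
      refine degenerate (K := K)
        (S := fun B => {c ∈ Bx K m B | FinitePlace.mk v (Nm β fun i => (c i : K)) ≤
          (B : ℝ) ^ (-κ)}) ?_
      intro B hB
      rw [Set.eq_empty_iff_forall_notMem]
      intro c hc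
      have h1 := hc.2
      rw [nm_zero hd] at h1
      simp only [map_one] at h1
      exact key B hB h1
  · obtain ⟨u, hu'⟩ := exists_int β hu
    exact ⟨fun σ => arch β u hu' hd hκ σ, fun v => finplace β u hu' hd hκ v⟩

end Pool.Agent.N951.PX
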